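import Mathlib

set_option autoImplicit false
set_option linter.unusedSectionVars false

open Finset Filter Topology

namespace Pool.Agent.Results.MP_b26fee_pr.SparseSet

/-- `π(a)` for the measure `π` on `{-1,1}` with `π(1) = p`; `true` stands for `1`, `false` for `-1`. -/
noncomputable def pt (p : ℝ) (a : Bool) : ℝ := if a then p else 1 - p

/-- The product measure `P(ω) = ∏ v, π(ω v)`. -/
noncomputable def wt {V : Type} [Fintype V] (p : ℝ) (ω : V → Bool) : ℝ := ∏ v, pt p (ω v)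

/-- `E[g]`. -/
noncomputable def ex {V : Type} [Fintype V] [DecidableEq V] (p : ℝ) (g : (V → Bool) → ℝ) : ℝ :=
  ∑ ω, wt p ω * g ω

/-- `Var(g)`. -/
noncomputable def var {V : Type} [Fintype V] [DecidableEq V] (p : ℝ) (g : (V → Bool) → ℝ) : ℝ :=
  ex p (fun ω => (g ω - ex p g) ^ 2)

/-- `E[g | F_U]`: the coordinates in `U` are those of `ω`, the others are averaged out. -/
noncomputable def condE {V : Type} [Fintype V] [DecidableEq V] (p : ℝ) (U : Finset V)
    (g : (V → Bool) → ℝ) : (V → Bool) → ℝ :=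
  fun ω => ex p (fun η => g (fun v => if v ∈ U then ω v else η v))

/-- `clue(f | U)`. -/
noncomputable def clue {V : Type} [Fintype V] [DecidableEq V] (p : ℝ) (f : (V → Bool) → ℝ)
    (U : Finset V) : ℝ :=
  var p (condE p U f) / var p f

/-- `E[clue(f | B^δ)]`. -/
noncomputable def clueB {V : Type} [Fintype V] [DecidableEq V] (p : ℝ) (f : (V → Bool) → ℝ)
    (δ : ℝ) : ℝ :=
  ∑ U : Finset V, δ ^ U.card * (1 - δ) ^ (Fintype.card V - U.card) * clue p f U

/-- The clue profile `cp_f(s)`. -/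
noncomputable def cp {V : Type} [Fintype V] [DecidableEq V] (p : ℝ) (f : (V → Bool) → ℝ)
    (s : ℝ) : ℝ :=
  sInf {u : ℝ | ∃ U : Finset V, (U.card : ℝ) / (Fintype.card V : ℝ) ≤ u ∧ s ≤ clue p f U}

/-- `E[f(ω) f(ω^ε)]`; the pair `ζ v = (ω v, ω^ε v)` has law `π(a) ((1 - ε) 1_{a = b} + ε π(b))`,
independently over the coordinates `v`. -/
noncomputable def corr {V : Type} [Fintype V] [DecidableEq V] (p : ℝ) (f : (V → Bool) → ℝ)
    (ε : ℝ) : ℝ :=
  ∑ ζ : V → Bool × Bool,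
    (∏ v, pt p (ζ v).1 * ((1 - ε) * (if (ζ v).1 = (ζ v).2 then 1 else 0) + ε * pt p (ζ v).2)) *
      (f (fun v => (ζ v).1) * f (fun v => (ζ v).2))

section general
variable {V : Type} [Fintype V] [DecidableEq V]

lemma wt_nonneg {p : ℝ} (h0 : 0 ≤ p) (h1 : p ≤ 1) (ω : V → Bool) : 0 ≤ wt p ω := by
  unfold wt
  refine Finset.prod_nonneg fun v _ => ?_
  unfold pt
  split_ifs
  · exact h0
  · linarith

lemma sum_wt (p : ℝ) : ∑ ω : V → Bool, wt p ω = 1 := by
  unfold wt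
  have h := Finset.prod_univ_sum (ι := V) (κ := fun _ => Bool) (fun _ => (Finset.univ : Finset Bool))
    (fun _ a => pt p a)
  rw [Fintype.piFinset_univ] at h
  rw [← h]
  simp [pt]

lemma ex_const (p c : ℝ) : ex (V := V) p (fun _ => c) = c := by
  unfold ex
  rw [← Finset.sum_mul, sum_wt, one_mul]

lemma ex_add (p : ℝ) (g h : (V → Bool) → ℝ) : ex p (fun ω => g ω + h ω) = ex p g + ex p h := by
  unfold ex
  rw [← Finset.sum_add_distrib]
  exact Finset.sum_congr rfl fun ω _ => by ring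

lemma ex_smul (p c : ℝ) (g : (V → Bool) → ℝ) : ex p (fun ω => c * g ω) = c * ex p g := by
  unfold ex
  rw [Finset.mul_sum]
  exact Finset.sum_congr rfl fun ω _ => by ring

lemma ex_nonneg {p : ℝ} (h0 : 0 ≤ p) (h1 : p ≤ 1) (g : (V → Bool) → ℝ) (hg : ∀ ω, 0 ≤ g ω) :
    0 ≤ ex p g := by
  unfold ex
  exact Finset.sum_nonneg fun ω _ => mul_nonneg (wt_nonneg h0 h1 ω) (hg ω)

lemma var_nonneg {p : ℝ} (h0 : 0 ≤ p) (h1 : p ≤ 1) (g : (V → Bool) → ℝ) : 0 ≤ var p g :=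
  ex_nonneg h0 h1 _ fun _ => sq_nonneg _

lemma var_eq (p : ℝ) (g : (V → Bool) → ℝ) : var p g = ex p (fun ω => g ω ^ 2) - ex p g ^ 2 := by
  unfold var
  have h : ∀ c : ℝ, ex p (fun ω => (g ω - c) ^ 2) = ex p (fun ω => g ω ^ 2) + (-2 * c) * ex p g + c ^ 2 := by
    intro c
    have : (fun ω => (g ω - c) ^ 2) = (fun ω => (g ω ^ 2 + (-2 * c) * g ω) + (fun _ : V → Bool => c ^ 2) ω) := by
      funext ω; ring
    rw [this, ex_add, ex_add, ex_smul, ex_const]
  rw [h]; ring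

/-- `Var h ≥ 2 Cov(h,T) - Var T`. -/
lemma var_ge {p : ℝ} (h0 : 0 ≤ p) (h1 : p ≤ 1) (h T : (V → Bool) → ℝ) :
    2 * (ex p (fun ω => h ω * T ω) - ex p h * ex p T) - var p T ≤ var p h := by
  have hv := var_nonneg h0 h1 (fun ω => h ω + (-1) * T ω)
  rw [var_eq] at hv
  have e1 : ex p (fun ω => (h ω + (-1) * T ω) ^ 2) =
      ex p (fun ω => h ω ^ 2) + (-2) * ex p (fun ω => h ω * T ω) + ex p (fun ω => T ω ^ 2) := by
    rw [← ex_smul, ← ex_add, ← ex_add]
    congr 1; funext ω; ring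
  have e2 : ex p (fun ω => h ω + (-1) * T ω) = ex p h + (-1) * ex p T := by
    rw [← ex_smul, ← ex_add]
  rw [e1, e2] at hv
  rw [var_eq, var_eq]
  nlinarith [hv]

lemma swap (p : ℝ) (U : Finset V) (f T : (V → Bool) → ℝ)
    (hT : ∀ ω η : V → Bool, T (fun v => if v ∈ U then ω v else η v) = T ω) :
    ex p (fun ω => condE p U f ω * T ω) = ex p (fun ω => f ω * T ω) := by
  unfold condE ex
  have hL : ∑ ω : V → Bool, wt p ω * ((∑ η : V → Bool, wt p η * f (fun v => if v ∈ U then ω v else η v)) * T ω)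
      = ∑ q : (V → Bool) × (V → Bool), wt p q.1 * wt p q.2 *
          (f (fun v => if v ∈ U then q.1 v else q.2 v) * T q.1) := by
    rw [Fintype.sum_prod_type]
    refine Finset.sum_congr rfl fun ω _ => ?_
    rw [Finset.sum_mul, Finset.mul_sum]
    exact Finset.sum_congr rfl fun η _ => by ring
  have hR : ∑ ω : V → Bool, wt p ω * (f ω * T ω)
      = ∑ q : (V → Bool) × (V → Bool), wt p q.1 * wt p q.2 *
          (f q.1 * T (fun v => if v ∈ U then q.1 v else q.2 v)) := by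
    rw [Fintype.sum_prod_type]
    refine Finset.sum_congr rfl fun ω _ => ?_
    simp only [hT]
    rw [← Finset.sum_mul, ← Finset.mul_sum, sum_wt, mul_one]
  rw [hL, hR]
  let σ : (V → Bool) × (V → Bool) → (V → Bool) × (V → Bool) := fun q =>
    (fun v => if v ∈ U then q.1 v else q.2 v, fun v => if v ∈ U then q.2 v else q.1 v)
  have hσ : Function.Involutive σ := by
    intro q
    refine Prod.ext ?_ ?_
    · funext v; simp only [σ]; split_ifs <;> rfl
    · funext v; simp only [σ]; split_ifs <;> rfl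
  rw [← Equiv.sum_comp hσ.toPerm (fun q : (V → Bool) × (V → Bool) => wt p q.1 * wt p q.2 *
          (f q.1 * T (fun v => if v ∈ U then q.1 v else q.2 v)))]
  refine Finset.sum_congr rfl fun q _ => ?_
  have e1 : (fun v => if v ∈ U then (σ q).1 v else (σ q).2 v) = q.1 := by
    funext v; simp only [σ]; split_ifs <;> rfl
  have e2 : wt p (σ q).1 * wt p (σ q).2 = wt p q.1 * wt p q.2 := by
    unfold wt
    rw [← Finset.prod_mul_distrib, ← Finset.prod_mul_distrib]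
    refine Finset.prod_congr rfl fun v _ => ?_
    simp only [σ]; split_ifs
    · rfl
    · ring
  show wt p q.1 * wt p q.2 * (f (σ q).1 * T q.1) = wt p (σ q).1 * wt p (σ q).2 *
    (f (σ q).1 * T (fun v => if v ∈ U then (σ q).1 v else (σ q).2 v))
  rw [e1, e2]

lemma ex_condE (p : ℝ) (U : Finset V) (f : (V → Bool) → ℝ) : ex p (condE p U f) = ex p f := by
  have := swap p U f (fun _ => 1) (fun _ _ => rfl)
  simpa using this

/-- If `T` depends only on `U` then `Var(E[f|F_U]) ≥ Var f - E(f-T)^2`. -/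
lemma var_condE_ge {p : ℝ} (h0 : 0 ≤ p) (h1 : p ≤ 1) (U : Finset V) (f T : (V → Bool) → ℝ)
    (hT : ∀ ω η : V → Bool, T (fun v => if v ∈ U then ω v else η v) = T ω) :
    var p f - ex p (fun ω => (f ω - T ω) ^ 2) ≤ var p (condE p U f) := by
  have hge := var_ge h0 h1 (condE p U f) T
  rw [swap p U f T hT, ex_condE] at hge
  have e1 : ex p (fun ω => (f ω - T ω) ^ 2) =
      ex p (fun ω => f ω ^ 2) + (-2) * ex p (fun ω => f ω * T ω) + ex p (fun ω => T ω ^ 2) := by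
    rw [← ex_smul, ← ex_add, ← ex_add]
    congr 1; funext ω; ring
  rw [e1, var_eq p f]
  rw [var_eq p T] at hge
  nlinarith [hge, sq_nonneg (ex p f - ex p T)]

lemma clue_nonneg {p : ℝ} (h0 : 0 ≤ p) (h1 : p ≤ 1) (f : (V → Bool) → ℝ) (U : Finset V) :
    0 ≤ clue p f U := div_nonneg (var_nonneg h0 h1 _) (var_nonneg h0 h1 _)

lemma clue_empty (p : ℝ) (f : (V → Bool) → ℝ) : clue p f ∅ = 0 := by
  unfold clue
  have h : condE p ∅ f = fun _ => ex p f := by
    funext ω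
    unfold condE
    simp
  rw [h]
  have : var (V := V) p (fun _ => ex p f) = 0 := by
    unfold var
    simp only [ex_const, sub_self]
    norm_num
  rw [this, zero_div]

end general

section blocks

variable {β : Type} [Fintype β] [DecidableEq β] (s : β → ℕ)

lemma block_sum {α : Type} [Fintype α] [DecidableEq α] (K : α → ℝ) (H : ∀ b, (Fin (s b) → α) → ℝ) :
    ∑ ζ : (Σ b, Fin (s b)) → α, (∏ v, K (ζ v)) * ∏ b, H b (fun i => ζ ⟨b, i⟩) =
      ∏ b, ∑ x : Fin (s b) → α, (∏ i, K (x i)) * H b x := by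
  have h := Finset.prod_univ_sum (ι := β) (κ := fun b => Fin (s b) → α)
    (fun b => (Finset.univ : Finset (Fin (s b) → α))) (fun b x => (∏ i, K (x i)) * H b x)
  rw [Fintype.piFinset_univ] at h
  rw [h]
  rw [← Equiv.sum_comp (Equiv.piCurry (fun (b : β) (_ : Fin (s b)) => α))]
  refine Finset.sum_congr rfl fun ζ _ => ?_
  rw [Finset.prod_mul_distrib]
  congr 1
  rw [Fintype.prod_sigma]
  rfl

/-- The indicator that all coordinates of the block `b` are `1`. -/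
noncomputable def A (ω : (Σ b, Fin (s b)) → Bool) (b : β) : ℝ :=
  ∏ i : Fin (s b), (if ω ⟨b, i⟩ then (1 : ℝ) else 0)

lemma A_nonneg (ω : (Σ b, Fin (s b)) → Bool) (b : β) : 0 ≤ A s ω b :=
  Finset.prod_nonneg fun i _ => by split_ifs <;> norm_num

lemma A_le_one (ω : (Σ b, Fin (s b)) → Bool) (b : β) : A s ω b ≤ 1 :=
  Finset.prod_le_one (fun i _ => by split_ifs <;> norm_num) fun i _ => by split_ifs <;> norm_num

lemma A_cases (ω : (Σ b, Fin (s b)) → Bool) (b : β) : A s ω b = 1 ∨ A s ω b = 0 := by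
  unfold A
  by_cases h : ∀ i : Fin (s b), ω ⟨b, i⟩ = true
  · left; exact Finset.prod_eq_one fun i _ => by simp [h i]
  · right
    push Not at h
    obtain ⟨i, hi⟩ := h
    exact Finset.prod_eq_zero (Finset.mem_univ i) (by simp [hi])

lemma A_mono {ω ω' : (Σ b, Fin (s b)) → Bool} (h : ω ≤ ω') (b : β) : A s ω b ≤ A s ω' b := by
  unfold A
  refine Finset.prod_le_prod (fun i _ => by split_ifs <;> norm_num) fun i _ => ?_
  have hi := h ⟨b, i⟩
  cases h1 : ω ⟨b, i⟩ <;> cases h2 : ω' ⟨b, i⟩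
  · simp
  · simp
  · rw [h1, h2] at hi
    have hi' : (true : Bool) ≤ false := hi
    exact absurd hi' (by decide)
  · simp

/-- The product over blocks of the indicator that the block is not all `1`. -/
noncomputable def g (ω : (Σ b, Fin (s b)) → Bool) : ℝ := ∏ b, (1 - A s ω b)

/-- `1` if some block is all `1`, and `-1` otherwise. -/
noncomputable def F (ω : (Σ b, Fin (s b)) → Bool) : ℝ := 1 - 2 * g s ω

lemma g_cases (ω : (Σ b, Fin (s b)) → Bool) : g s ω = 1 ∨ g s ω = 0 := by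
  unfold g
  by_cases h : ∀ b, A s ω b = 0
  · left; exact Finset.prod_eq_one fun i _ => by simp [h i]
  · right
    push Not at h
    obtain ⟨b, hb⟩ := h
    refine Finset.prod_eq_zero (Finset.mem_univ b) ?_
    rcases A_cases s ω b with h | h
    · rw [h, sub_self]
    · exact absurd h hb

lemma F_cases (ω : (Σ b, Fin (s b)) → Bool) : F s ω = 1 ∨ F s ω = -1 := by
  unfold F
  rcases g_cases s ω with h | h <;> rw [h] <;> norm_num

lemma F_mono : Monotone (F s) := by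
  intro ω ω' h
  unfold F g
  have : ∏ b, (1 - A s ω' b) ≤ ∏ b, (1 - A s ω b) :=
    Finset.prod_le_prod (fun b _ => by linarith [A_le_one s ω' b]) fun b _ => by
      linarith [A_mono s h b]
  linarith

lemma sum_prod_eq {α : Type} [Fintype α] [DecidableEq α] (h : α → ℝ) (n : ℕ) :
    ∑ x : Fin n → α, ∏ i, h (x i) = (∑ a, h a) ^ n := (Fintype.sum_pow h n).symm

lemma ex_g : ex (1 / 2) (g s) = ∏ b, (1 - (1 / 2 : ℝ) ^ s b) := by
  unfold ex wt g A
  rw [block_sum s (pt (1 / 2)) (fun b x => 1 - ∏ i, (if x i then (1 : ℝ) else 0))]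
  refine Finset.prod_congr rfl fun b _ => ?_
  have : ∀ x : Fin (s b) → Bool, (∏ i, pt (1 / 2) (x i)) * (1 - ∏ i, (if x i then (1 : ℝ) else 0)) =
      (∏ i, pt (1 / 2) (x i)) - ∏ i, (pt (1 / 2) (x i) * (if x i then (1 : ℝ) else 0)) := by
    intro x
    rw [mul_sub, mul_one, Finset.prod_mul_distrib]
  simp only [this]
  rw [Finset.sum_sub_distrib, sum_prod_eq (pt (1 / 2)), sum_prod_eq (fun a => pt (1 / 2) a * (if a then (1 : ℝ) else 0))]
  simp [pt]

/-- The law of a pair `(ω v, ω^ε v)`. -/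
noncomputable def Kp (ε : ℝ) (z : Bool × Bool) : ℝ :=
  pt (1 / 2) z.1 * ((1 - ε) * (if z.1 = z.2 then 1 else 0) + ε * pt (1 / 2) z.2)

lemma corr_F (ε : ℝ) : corr (1 / 2) (F s) ε =
    1 - 4 * ∏ b, (1 - (1 / 2 : ℝ) ^ s b) +
      4 * ∏ b, (1 - 2 * (1 / 2 : ℝ) ^ s b + (1 / 2 - ε / 4) ^ s b) := by
  have hexp : corr (1 / 2) (F s) ε =
      (∑ ζ : (Σ b, Fin (s b)) → Bool × Bool, (∏ v, Kp ε (ζ v)) * ∏ b : β, (1 : ℝ))
      - 2 * (∑ ζ : (Σ b, Fin (s b)) → Bool × Bool, (∏ v, Kp ε (ζ v)) *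
          ∏ b, (1 - ∏ i, (if (ζ ⟨b, i⟩).1 then (1 : ℝ) else 0)))
      - 2 * (∑ ζ : (Σ b, Fin (s b)) → Bool × Bool, (∏ v, Kp ε (ζ v)) *
          ∏ b, (1 - ∏ i, (if (ζ ⟨b, i⟩).2 then (1 : ℝ) else 0)))
      + 4 * (∑ ζ : (Σ b, Fin (s b)) → Bool × Bool, (∏ v, Kp ε (ζ v)) *
          ∏ b, ((1 - ∏ i, (if (ζ ⟨b, i⟩).1 then (1 : ℝ) else 0)) *
            (1 - ∏ i, (if (ζ ⟨b, i⟩).2 then (1 : ℝ) else 0)))) := by
    unfold corr
    rw [Finset.mul_sum, Finset.mul_sum, Finset.mul_sum, ← Finset.sum_sub_distrib,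
      ← Finset.sum_sub_distrib, ← Finset.sum_add_distrib]
    refine Finset.sum_congr rfl fun ζ _ => ?_
    have hp := Finset.prod_mul_distrib (s := (Finset.univ : Finset β))
      (f := fun b => 1 - A s (fun v => (ζ v).1) b) (g := fun b => 1 - A s (fun v => (ζ v).2) b)
    change (∏ v, Kp ε (ζ v)) * ((1 - 2 * ∏ b, (1 - A s (fun v => (ζ v).1) b)) *
        (1 - 2 * ∏ b, (1 - A s (fun v => (ζ v).2) b))) =
      (∏ v, Kp ε (ζ v)) * ∏ b : β, (1 : ℝ)
      - 2 * ((∏ v, Kp ε (ζ v)) * ∏ b, (1 - A s (fun v => (ζ v).1) b))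
      - 2 * ((∏ v, Kp ε (ζ v)) * ∏ b, (1 - A s (fun v => (ζ v).2) b))
      + 4 * ((∏ v, Kp ε (ζ v)) * ∏ b, ((1 - A s (fun v => (ζ v).1) b) *
        (1 - A s (fun v => (ζ v).2) b)))
    rw [hp, Finset.prod_const_one]
    ring
  rw [hexp]
  rw [block_sum s (Kp ε) (fun b _ => 1),
    block_sum s (Kp ε) (fun b x => 1 - ∏ i, (if (x i).1 then (1 : ℝ) else 0)),
    block_sum s (Kp ε) (fun b x => 1 - ∏ i, (if (x i).2 then (1 : ℝ) else 0)),
    block_sum s (Kp ε) (fun b x => (1 - ∏ i, (if (x i).1 then (1 : ℝ) else 0)) *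
      (1 - ∏ i, (if (x i).2 then (1 : ℝ) else 0)))]
  have k0 : ∑ a : Bool × Bool, Kp ε a = 1 := by
    simp [Fintype.sum_prod_type, Kp, pt]; ring
  have k1 : ∑ a : Bool × Bool, Kp ε a * (if a.1 then (1 : ℝ) else 0) = 1 / 2 := by
    simp [Fintype.sum_prod_type, Kp, pt]; ring
  have k2 : ∑ a : Bool × Bool, Kp ε a * (if a.2 then (1 : ℝ) else 0) = 1 / 2 := by
    simp [Fintype.sum_prod_type, Kp, pt]; ring
  have k3 : ∑ a : Bool × Bool, Kp ε a * ((if a.1 then (1 : ℝ) else 0) * (if a.2 then (1 : ℝ) else 0)) =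
      1 / 2 - ε / 4 := by
    simp [Fintype.sum_prod_type, Kp, pt]; ring
  have e0 : ∀ b : β, ∑ x : Fin (s b) → Bool × Bool, (∏ i, Kp ε (x i)) * (1 : ℝ) = 1 := by
    intro b
    simp only [mul_one]
    rw [sum_prod_eq (Kp ε), k0, one_pow]
  have e1 : ∀ b : β, ∑ x : Fin (s b) → Bool × Bool, (∏ i, Kp ε (x i)) *
      (1 - ∏ i, (if (x i).1 then (1 : ℝ) else 0)) = 1 - (1 / 2) ^ s b := by
    intro b
    have : ∀ x : Fin (s b) → Bool × Bool, (∏ i, Kp ε (x i)) *
      (1 - ∏ i, (if (x i).1 then (1 : ℝ) else 0)) = (∏ i, Kp ε (x i)) -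
        ∏ i, (Kp ε (x i) * (if (x i).1 then (1 : ℝ) else 0)) := by
      intro x; rw [mul_sub, mul_one, Finset.prod_mul_distrib]
    simp only [this]
    rw [Finset.sum_sub_distrib, sum_prod_eq (Kp ε),
      sum_prod_eq (fun a => Kp ε a * (if a.1 then (1 : ℝ) else 0)), k0, k1, one_pow]
  have e2 : ∀ b : β, ∑ x : Fin (s b) → Bool × Bool, (∏ i, Kp ε (x i)) *
      (1 - ∏ i, (if (x i).2 then (1 : ℝ) else 0)) = 1 - (1 / 2) ^ s b := by
    intro b
    have : ∀ x : Fin (s b) → Bool × Bool, (∏ i, Kp ε (x i)) *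
      (1 - ∏ i, (if (x i).2 then (1 : ℝ) else 0)) = (∏ i, Kp ε (x i)) -
        ∏ i, (Kp ε (x i) * (if (x i).2 then (1 : ℝ) else 0)) := by
      intro x; rw [mul_sub, mul_one, Finset.prod_mul_distrib]
    simp only [this]
    rw [Finset.sum_sub_distrib, sum_prod_eq (Kp ε),
      sum_prod_eq (fun a => Kp ε a * (if a.2 then (1 : ℝ) else 0)), k0, k2, one_pow]
  have e3 : ∀ b : β, ∑ x : Fin (s b) → Bool × Bool, (∏ i, Kp ε (x i)) *
      ((1 - ∏ i, (if (x i).1 then (1 : ℝ) else 0)) * (1 - ∏ i, (if (x i).2 then (1 : ℝ) else 0))) =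
      1 - 2 * (1 / 2) ^ s b + (1 / 2 - ε / 4) ^ s b := by
    intro b
    have : ∀ x : Fin (s b) → Bool × Bool, (∏ i, Kp ε (x i)) *
      ((1 - ∏ i, (if (x i).1 then (1 : ℝ) else 0)) * (1 - ∏ i, (if (x i).2 then (1 : ℝ) else 0))) =
        ((∏ i, Kp ε (x i)) - ∏ i, (Kp ε (x i) * (if (x i).1 then (1 : ℝ) else 0))) -
        (∏ i, (Kp ε (x i) * (if (x i).2 then (1 : ℝ) else 0)) -
          ∏ i, (Kp ε (x i) * ((if (x i).1 then (1 : ℝ) else 0) * (if (x i).2 then (1 : ℝ) else 0)))) := by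
      intro x; simp only [Finset.prod_mul_distrib]; ring
    simp only [this]
    rw [Finset.sum_sub_distrib, Finset.sum_sub_distrib, Finset.sum_sub_distrib, sum_prod_eq (Kp ε),
      sum_prod_eq (fun a => Kp ε a * (if a.1 then (1 : ℝ) else 0)),
      sum_prod_eq (fun a => Kp ε a * (if a.2 then (1 : ℝ) else 0)),
      sum_prod_eq (fun a => Kp ε a * ((if a.1 then (1 : ℝ) else 0) * (if a.2 then (1 : ℝ) else 0))),
      k0, k1, k2, k3, one_pow]
    ring
  simp only [e0, e1, e2, e3, Finset.prod_const_one]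
  ring

lemma ex_A (b₀ : β) : ex (1 / 2) (fun ω => A s ω b₀) = (1 / 2 : ℝ) ^ s b₀ := by
  have h1 : ∀ ω : (Σ b, Fin (s b)) → Bool, A s ω b₀ =
      ∏ b, (if b = b₀ then ∏ i : Fin (s b), (if ω ⟨b, i⟩ then (1 : ℝ) else 0) else 1) := by
    intro ω
    rw [Finset.prod_ite_eq']
    simp [A]
  unfold ex wt
  simp only [h1]
  rw [block_sum s (pt (1 / 2))
    (fun b x => if b = b₀ then ∏ i, (if x i then (1 : ℝ) else 0) else 1)]
  have h2 : ∀ b, ∑ x : Fin (s b) → Bool, (∏ i, pt (1 / 2) (x i)) *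
      (if b = b₀ then ∏ i, (if x i then (1 : ℝ) else 0) else 1) =
      if b = b₀ then (1 / 2 : ℝ) ^ s b else 1 := by
    intro b
    split_ifs with hb
    · simp only [← Finset.prod_mul_distrib]
      rw [sum_prod_eq (fun a => pt (1 / 2) a * (if a then (1 : ℝ) else 0))]
      simp [pt]
    · simp only [mul_one]
      rw [sum_prod_eq (pt (1 / 2))]
      simp [pt]
  simp only [h2]
  rw [Finset.prod_ite_eq']
  simp

end blocks

lemma sum_supersets {V : Type} [Fintype V] [DecidableEq V] (X : Finset V) (δ : ℝ) (h0 : 0 ≤ δ)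
    (h1 : δ ≤ 1) (c : ℝ) (F : Finset V → ℝ) (hF : ∀ U, 0 ≤ F U) (hc : ∀ U, X ⊆ U → c ≤ F U) :
    δ ^ X.card * c ≤ ∑ U : Finset V, δ ^ U.card * (1 - δ) ^ (Fintype.card V - U.card) * F U := by
  have hinj : Set.InjOn (fun W : Finset V => X ∪ W) (Xᶜ.powerset : Finset (Finset V)) := by
    intro W hW W' hW' h
    have hW1 : Disjoint X W := by
      have := Finset.mem_powerset.1 (Finset.mem_coe.1 hW)
      exact (Finset.disjoint_left.2 fun a ha ha' => (Finset.mem_compl.1 (this ha')) ha)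
    have hW2 : Disjoint X W' := by
      have := Finset.mem_powerset.1 (Finset.mem_coe.1 hW')
      exact (Finset.disjoint_left.2 fun a ha ha' => (Finset.mem_compl.1 (this ha')) ha)
    have h' : X ∪ W = X ∪ W' := h
    calc W = (X ∪ W) \ X := by
          rw [Finset.union_sdiff_left, Finset.sdiff_eq_self_of_disjoint hW1.symm]
      _ = (X ∪ W') \ X := by rw [h']
      _ = W' := by rw [Finset.union_sdiff_left, Finset.sdiff_eq_self_of_disjoint hW2.symm]
  have hterm : ∀ U : Finset V, 0 ≤ δ ^ U.card * (1 - δ) ^ (Fintype.card V - U.card) * F U :=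
    fun U => mul_nonneg (mul_nonneg (pow_nonneg h0 _) (pow_nonneg (by linarith) _)) (hF U)
  calc δ ^ X.card * c = δ ^ X.card * ((δ + (1 - δ)) ^ (Xᶜ).card) * c := by
        rw [add_sub_cancel, one_pow, mul_one]
    _ = ∑ W ∈ Xᶜ.powerset, δ ^ X.card * (δ ^ W.card * (1 - δ) ^ ((Xᶜ).card - W.card)) * c := by
        rw [← Finset.sum_pow_mul_eq_add_pow, Finset.mul_sum, Finset.sum_mul]
    _ ≤ ∑ W ∈ Xᶜ.powerset, δ ^ (X ∪ W).card * (1 - δ) ^ (Fintype.card V - (X ∪ W).card) *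
          F (X ∪ W) := by
        refine Finset.sum_le_sum fun W hW => ?_
        have hd : Disjoint X W := by
          have := Finset.mem_powerset.1 hW
          exact (Finset.disjoint_left.2 fun a ha ha' => (Finset.mem_compl.1 (this ha')) ha)
        rw [Finset.card_union_of_disjoint hd, pow_add]
        have hcc : (Xᶜ).card - W.card = Fintype.card V - (X.card + W.card) := by
          rw [Finset.card_compl]; omega
        rw [hcc, ← mul_assoc]
        refine mul_le_mul_of_nonneg_left (hc _ Finset.subset_union_left) ?_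
        exact mul_nonneg (mul_nonneg (pow_nonneg h0 _) (pow_nonneg h0 _)) (pow_nonneg (by linarith) _)
    _ = ∑ U ∈ Xᶜ.powerset.image (fun W => X ∪ W),
          δ ^ U.card * (1 - δ) ^ (Fintype.card V - U.card) * F U := by
        rw [Finset.sum_image hinj]
    _ ≤ _ := Finset.sum_le_sum_of_subset_of_nonneg (Finset.subset_univ _) fun U _ _ => hterm U

section concrete

/-- Block sizes: `2^k` blocks of size `k` and one block of size `M`. -/
def sz (k M : ℕ) (b : Option (Fin (2 ^ k))) : ℕ := b.elim M (fun _ => k)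

abbrev W (k M : ℕ) : Type := Σ b : Option (Fin (2 ^ k)), Fin (sz k M b)

lemma card_W (k M : ℕ) : Fintype.card (W k M) = M + 2 ^ k * k := by
  rw [Fintype.card_sigma]
  simp only [Fintype.card_fin]
  rw [Fintype.sum_option]
  simp [sz]

/-- The coordinates in the small blocks. -/
def X (k M : ℕ) : Finset (W k M) := Finset.univ.filter fun v => v.1 ≠ none

lemma card_X (k M : ℕ) : (X k M).card = 2 ^ k * k := by
  have h : (Finset.univ.filter fun v : W k M => v.1 = none).card = M := by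
    have : (Finset.univ.filter fun v : W k M => v.1 = none) =
        Finset.univ.map ⟨fun i : Fin M => (⟨none, i⟩ : W k M), fun i j h => by
          have h' : @Eq (Fin (sz k M none)) i j := by simpa using h
          exact h'⟩ := by
      ext v
      simp only [Finset.mem_filter, Finset.mem_univ, true_and, Finset.mem_map,
        Function.Embedding.coeFn_mk]
      constructor
      · intro hv
        obtain ⟨b, i⟩ := v
        simp only at hv
        subst hv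
        exact ⟨i, rfl⟩
      · rintro ⟨i, rfl⟩
        rfl
    rw [this, Finset.card_map, Finset.card_univ, Fintype.card_fin]
  have h2 := Finset.card_filter_add_card_filter_not (s := (Finset.univ : Finset (W k M)))
    (fun v => v.1 = none)
  rw [h, Finset.card_univ, card_W] at h2
  unfold X
  simp only [ne_eq]
  omega

lemma q_bounds (k : ℕ) (hk : 1 ≤ k) :
    1 / 4 ≤ (1 - (1 / 2 : ℝ) ^ k) ^ (2 ^ k) ∧ (1 - (1 / 2 : ℝ) ^ k) ^ (2 ^ k) ≤ 1 / 2 := by
  obtain ⟨j, rfl⟩ : ∃ j, k = j + 1 := ⟨k - 1, by omega⟩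
  have hx : (1 / 2 : ℝ) ^ (j + 1) * 2 ^ (j + 1) = 1 := by rw [← mul_pow]; norm_num
  have hle : (1 / 2 : ℝ) ^ (j + 1) ≤ 1 / 2 := by
    rw [pow_succ]
    have : (1 / 2 : ℝ) ^ j ≤ 1 := pow_le_one₀ (by norm_num) (by norm_num)
    linarith
  constructor
  · have h1 : (2 : ℕ) ^ (j + 1) = 2 ^ j * 2 := pow_succ 2 j
    rw [h1, pow_mul]
    have hb := one_add_mul_le_pow (a := -(1 / 2 : ℝ) ^ (j + 1)) (by linarith) (2 ^ j)
    have h2 : 1 + ((2 ^ j : ℕ) : ℝ) * -(1 / 2 : ℝ) ^ (j + 1) = 1 / 2 := by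
      push_cast
      have : (2 : ℝ) ^ j * (1 / 2) ^ (j + 1) = 1 / 2 := by
        rw [pow_succ, ← mul_assoc, ← mul_pow]; norm_num
      linarith
    rw [h2] at hb
    have h3 : (1 / 2 : ℝ) ≤ (1 - (1 / 2) ^ (j + 1)) ^ 2 ^ j := by
      rw [sub_eq_add_neg]; exact hb
    nlinarith [h3]
  · have h1 : 1 - (1 / 2 : ℝ) ^ (j + 1) ≤ Real.exp (-(1 / 2) ^ (j + 1)) := by
      have := Real.add_one_le_exp (-(1 / 2 : ℝ) ^ (j + 1))
      linarith
    calc (1 - (1 / 2 : ℝ) ^ (j + 1)) ^ 2 ^ (j + 1) ≤ (Real.exp (-(1 / 2) ^ (j + 1))) ^ 2 ^ (j + 1) :=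
          pow_le_pow_left₀ (by linarith) h1 _
      _ = Real.exp (-1) := by
          rw [← Real.exp_nat_mul]
          congr 1
          push_cast
          linarith
      _ ≤ 1 / 2 := by
          rw [Real.exp_neg, ← one_div]
          refine one_div_le_one_div_of_le (by norm_num) ?_
          have := Real.add_one_le_exp (1 : ℝ)
          linarith

lemma prod_sz (k M : ℕ) (φ : ℕ → ℝ) :
    ∏ b : Option (Fin (2 ^ k)), φ (sz k M b) = φ M * (φ k) ^ (2 ^ k) := by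
  rw [Fintype.prod_option]
  simp [sz]

lemma ex_g_bounds (k M : ℕ) (hk : 1 ≤ k) (hM : 1 ≤ M) :
    1 / 8 ≤ ex (1 / 2) (g (sz k M)) ∧ ex (1 / 2) (g (sz k M)) ≤ 1 / 2 := by
  rw [ex_g, prod_sz k M (fun m => 1 - (1 / 2 : ℝ) ^ m)]
  have hq := q_bounds k hk
  have hle : (1 / 2 : ℝ) ^ M ≤ 1 / 2 := by
    calc (1 / 2 : ℝ) ^ M ≤ (1 / 2) ^ 1 := pow_le_pow_of_le_one (by norm_num) (by norm_num) hM
      _ = 1 / 2 := pow_one _
  have hpos : (0 : ℝ) < (1 / 2) ^ M := by positivity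
  constructor <;> nlinarith [hq.1, hq.2]

lemma ex_F (k M : ℕ) : ex (1 / 2) (F (sz k M)) = 1 - 2 * ex (1 / 2) (g (sz k M)) := by
  have : F (sz k M) = fun ω => (fun _ => (1 : ℝ)) ω + (-2) * g (sz k M) ω := by
    funext ω; unfold F; ring
  rw [this, ex_add, ex_smul, ex_const]; ring

lemma var_F (k M : ℕ) (hk : 1 ≤ k) (hM : 1 ≤ M) : 1 / 4 ≤ var (1 / 2) (F (sz k M)) := by
  rw [var_eq]
  have h1 : ex (1 / 2) (fun ω => F (sz k M) ω ^ 2) = 1 := by
    have : (fun ω => F (sz k M) ω ^ 2) = fun _ => (1 : ℝ) := by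
      funext ω
      rcases F_cases (sz k M) ω with h | h <;> rw [h] <;> norm_num
    rw [this, ex_const]
  rw [h1, ex_F]
  have := ex_g_bounds k M hk hM
  nlinarith [this.1, this.2]

/-- The part of `F` that depends on the small blocks. -/
noncomputable def T (k M : ℕ) (ω : W k M → Bool) : ℝ :=
  1 - 2 * ∏ j : Fin (2 ^ k), (1 - A (sz k M) ω (some j))

lemma T_mix (k M : ℕ) (U : Finset (W k M)) (hU : X k M ⊆ U) (ω η : W k M → Bool) :
    T k M (fun v => if v ∈ U then ω v else η v) = T k M ω := by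
  unfold T A
  have : ∀ (j : Fin (2 ^ k)) (i : Fin (sz k M (some j))), (⟨some j, i⟩ : W k M) ∈ U :=
    fun j i => hU (by simp [X])
  simp [this]

lemma ex_FT (k M : ℕ) :
    ex (1 / 2) (fun ω => (F (sz k M) ω - T k M ω) ^ 2) ≤ 4 * (1 / 2 : ℝ) ^ M := by
  have h1 := ex_A (sz k M) none
  have h2 : (fun ω => 4 * A (sz k M) ω none) = fun ω =>
      (F (sz k M) ω - T k M ω) ^ 2 + (4 * A (sz k M) ω none - (F (sz k M) ω - T k M ω) ^ 2) := by
    funext ω; ring
  have h3 : ex (1 / 2) (fun ω => 4 * A (sz k M) ω none) = 4 * (1 / 2 : ℝ) ^ M := by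
    rw [ex_smul, h1]; rfl
  rw [h2, ex_add] at h3
  have h4 : 0 ≤ ex (1 / 2) (fun ω => 4 * A (sz k M) ω none - (F (sz k M) ω - T k M ω) ^ 2) := by
    refine ex_nonneg (by norm_num) (by norm_num) _ fun ω => ?_
    unfold F T g
    rw [Fintype.prod_option]
    set P := ∏ j : Fin (2 ^ k), (1 - A (sz k M) ω (some j)) with hP
    have hP0 : 0 ≤ P := Finset.prod_nonneg fun j _ => by linarith [A_le_one (sz k M) ω (some j)]
    have hP1 : P ≤ 1 := Finset.prod_le_one (fun j _ => by linarith [A_le_one (sz k M) ω (some j)])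
      fun j _ => by linarith [A_nonneg (sz k M) ω (some j)]
    have ha0 := A_nonneg (sz k M) ω none
    have ha1 := A_le_one (sz k M) ω none
    set a := A (sz k M) ω none
    have e : 4 * a - (1 - 2 * ((1 - a) * P) - (1 - 2 * P)) ^ 2 = 4 * a * (1 - a * P ^ 2) := by ring
    rw [e]
    have : a * P ^ 2 ≤ 1 := by
      have hP2 : P ^ 2 ≤ 1 := by nlinarith
      nlinarith [sq_nonneg P]
    nlinarith
  linarith

lemma clue_ge (k M : ℕ) (hk : 1 ≤ k) (hM : 1 ≤ M) (U : Finset (W k M)) (hU : X k M ⊆ U) :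
    1 - 16 * (1 / 2 : ℝ) ^ M ≤ clue (1 / 2) (F (sz k M)) U := by
  unfold clue
  have hv := var_F k M hk hM
  have h1 := var_condE_ge (p := 1 / 2) (by norm_num) (by norm_num) U (F (sz k M)) (T k M)
    (T_mix k M U hU)
  have h2 := ex_FT k M
  rw [le_div_iff₀ (by linarith)]
  have : (0 : ℝ) ≤ (1 / 2) ^ M := by positivity
  nlinarith

lemma clueB_ge (k M : ℕ) (hk : 1 ≤ k) (hM : 1 ≤ M) (δ : ℝ) (h0 : 0 ≤ δ) (h1 : δ ≤ 1) :
    δ ^ (2 ^ k * k) * (1 - 16 * (1 / 2 : ℝ) ^ M) ≤ clueB (1 / 2) (F (sz k M)) δ := by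
  have := sum_supersets (X k M) δ h0 h1 (1 - 16 * (1 / 2 : ℝ) ^ M)
    (fun U => clue (1 / 2) (F (sz k M)) U) (fun U => clue_nonneg (by norm_num) (by norm_num) _ _)
    (fun U hU => clue_ge k M hk hM U hU)
  rw [card_X] at this
  exact this

lemma cp_le (k M : ℕ) (hk : 1 ≤ k) (hM : 1 ≤ M) (δ : ℝ) (hδ : δ ≤ 1 - 16 * (1 / 2 : ℝ) ^ M) :
    cp (1 / 2) (F (sz k M)) δ ≤ ((2 ^ k * k : ℕ) : ℝ) / ((M + 2 ^ k * k : ℕ) : ℝ) := by
  unfold cp
  refine csInf_le ⟨0, ?_⟩ ⟨X k M, ?_, ?_⟩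
  · rintro u ⟨U, hU, -⟩
    exact le_trans (by positivity) hU
  · rw [card_X, card_W]
  · exact hδ.trans (clue_ge k M hk hM _ (Finset.Subset.refl _))

lemma cp_pos (k M : ℕ) (hk : 1 ≤ k) (hM : 1 ≤ M) (δ : ℝ) (h0 : 0 < δ)
    (hδ : δ ≤ 1 - 16 * (1 / 2 : ℝ) ^ M) : 0 < cp (1 / 2) (F (sz k M)) δ := by
  have hc : (0 : ℝ) < ((M + 2 ^ k * k : ℕ) : ℝ) := by
    have : 0 < M + 2 ^ k * k := by omega
    exact_mod_cast this
  have : 1 / ((M + 2 ^ k * k : ℕ) : ℝ) ≤ cp (1 / 2) (F (sz k M)) δ := by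
    unfold cp
    refine le_csInf ⟨_, X k M, le_rfl, hδ.trans (clue_ge k M hk hM _ (Finset.Subset.refl _))⟩ ?_
    rintro u ⟨U, hU, hcl⟩
    refine le_trans ?_ hU
    rw [card_W]
    have hne : U.Nonempty := by
      rw [Finset.nonempty_iff_ne_empty]
      rintro rfl
      rw [clue_empty] at hcl
      linarith
    have : (1 : ℝ) ≤ (U.card : ℝ) := by
      have := Finset.card_pos.2 hne
      exact_mod_cast this
    exact div_le_div_of_nonneg_right this hc.le
  have h2 : 0 < 1 / ((M + 2 ^ k * k : ℕ) : ℝ) := by positivity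
  linarith

lemma abs_corr_le (k M : ℕ) (hk : 1 ≤ k) (hM : k ≤ M) (ε : ℝ) (h0 : 0 < ε) (h1 : ε < 1) :
    |corr (1 / 2) (F (sz k M)) ε - ex (1 / 2) (F (sz k M)) ^ 2| ≤
      4 * (3 * (1 / 2 : ℝ) ^ k + (1 - ε / 2) ^ k) := by
  rw [corr_F, ex_F, ex_g, prod_sz k M (fun m => 1 - (1 / 2 : ℝ) ^ m),
    prod_sz k M (fun m => 1 - 2 * (1 / 2 : ℝ) ^ m + (1 / 2 - ε / 4) ^ m)]
  have hκ0 : 0 ≤ 1 / 2 - ε / 4 := by linarith
  have key : ∀ m : ℕ, 1 ≤ m → 0 ≤ (1 / 2 - ε / 4) ^ m ∧ (1 / 2 - ε / 4) ^ m ≤ (1 / 2 : ℝ) ^ m ∧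
      (1 / 2 : ℝ) ^ m ≤ 1 / 2 ∧ (0 : ℝ) < (1 / 2) ^ m := by
    intro m hm
    refine ⟨pow_nonneg hκ0 _, pow_le_pow_left₀ hκ0 (by linarith) _, ?_, by positivity⟩
    calc (1 / 2 : ℝ) ^ m ≤ (1 / 2) ^ 1 := pow_le_pow_of_le_one (by norm_num) (by norm_num) hm
      _ = 1 / 2 := pow_one _
  obtain ⟨a1, a2, a3, a4⟩ := key M (hk.trans hM)
  obtain ⟨c1, c2, c3, c4⟩ := key k hk
  have hMk : (1 / 2 : ℝ) ^ M ≤ (1 / 2) ^ k :=
    pow_le_pow_of_le_one (by norm_num) (by norm_num) hM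
  set x := (1 / 2 : ℝ) ^ M
  set y := (1 / 2 : ℝ) ^ k with hy
  set u := (1 / 2 - ε / 4) ^ M
  set v := (1 / 2 - ε / 4) ^ k with hv
  set P := (1 - 2 * y + v) ^ 2 ^ k with hP
  set Q := (1 - y) ^ 2 ^ k with hQ
  have hP0 : 0 ≤ P := pow_nonneg (by linarith) _
  have hP1 : P ≤ 1 := pow_le_one₀ (by linarith) (by linarith)
  have hQ0 : 0 ≤ Q := pow_nonneg (by linarith) _
  have hQ1 : Q ≤ 1 := pow_le_one₀ (by linarith) (by linarith)
  have hQ2 : Q ^ 2 = ((1 - y) ^ 2) ^ 2 ^ k := by rw [hQ, ← pow_mul, ← pow_mul, mul_comm]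
  have hPQ : |P - Q ^ 2| ≤ (1 - ε / 2) ^ k + y := by
    rw [hQ2]
    refine (abs_pow_sub_pow_le _ _ _).trans ?_
    have e1 : max |1 - 2 * y + v| |(1 - y) ^ 2| ^ (2 ^ k - 1) ≤ 1 := by
      refine pow_le_one₀ (le_max_of_le_left (abs_nonneg _)) (max_le ?_ ?_)
      · rw [abs_le]; constructor <;> linarith
      · rw [abs_le]; constructor <;> nlinarith
    have e2 : |1 - 2 * y + v - (1 - y) ^ 2| ≤ v + y ^ 2 := by
      rw [abs_le]; constructor <;> nlinarith [sq_nonneg y]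
    have e3 : ((2 ^ k : ℕ) : ℝ) * v = (1 - ε / 2) ^ k := by
      rw [hv]; push_cast; rw [← mul_pow]; congr 1; ring
    have e4 : ((2 ^ k : ℕ) : ℝ) * y = 1 := by
      rw [hy]; push_cast; rw [← mul_pow]; norm_num
    have hN : (0 : ℝ) ≤ ((2 ^ k : ℕ) : ℝ) := by positivity
    calc |1 - 2 * y + v - (1 - y) ^ 2| * ((2 ^ k : ℕ) : ℝ) *
          max |1 - 2 * y + v| |(1 - y) ^ 2| ^ (2 ^ k - 1)
        ≤ |1 - 2 * y + v - (1 - y) ^ 2| * ((2 ^ k : ℕ) : ℝ) * 1 :=
          mul_le_mul_of_nonneg_left e1 (mul_nonneg (abs_nonneg _) hN)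
      _ ≤ (v + y ^ 2) * ((2 ^ k : ℕ) : ℝ) * 1 := by
          rw [mul_one, mul_one]
          exact mul_le_mul_of_nonneg_right e2 hN
      _ = ((2 ^ k : ℕ) : ℝ) * v + (((2 ^ k : ℕ) : ℝ) * y) * y := by ring
      _ = (1 - ε / 2) ^ k + y := by rw [e3, e4, one_mul]
  have hb : |(1 - 2 * x + u) * P - (1 - x) ^ 2 * Q ^ 2| ≤ 3 * y + (1 - ε / 2) ^ k := by
    have e : (1 - 2 * x + u) * P - (1 - x) ^ 2 * Q ^ 2 =
        (1 - 2 * x + u) * (P - Q ^ 2) + Q ^ 2 * (u - x ^ 2) := by ring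
    rw [e]
    have f1 : |(1 - 2 * x + u) * (P - Q ^ 2)| ≤ (1 - ε / 2) ^ k + y := by
      rw [abs_mul, abs_of_nonneg (by linarith : 0 ≤ 1 - 2 * x + u)]
      calc (1 - 2 * x + u) * |P - Q ^ 2| ≤ 1 * |P - Q ^ 2| :=
            mul_le_mul_of_nonneg_right (by linarith) (abs_nonneg _)
        _ ≤ _ := by rw [one_mul]; exact hPQ
    have f2 : |Q ^ 2 * (u - x ^ 2)| ≤ 2 * y := by
      rw [abs_mul, abs_of_nonneg (sq_nonneg Q)]
      have g1 : |u - x ^ 2| ≤ 2 * y := by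
        rw [abs_le]; constructor <;> nlinarith
      have g2 : Q ^ 2 ≤ 1 := by nlinarith
      calc Q ^ 2 * |u - x ^ 2| ≤ 1 * |u - x ^ 2| := mul_le_mul_of_nonneg_right g2 (abs_nonneg _)
        _ ≤ _ := by rw [one_mul]; exact g1
    calc _ ≤ |(1 - 2 * x + u) * (P - Q ^ 2)| + |Q ^ 2 * (u - x ^ 2)| := abs_add_le _ _
      _ ≤ _ := by linarith
  have hfin : 1 - 4 * ((1 - x) * Q) + 4 * ((1 - 2 * x + u) * P) - (1 - 2 * ((1 - x) * Q)) ^ 2 =
      4 * ((1 - 2 * x + u) * P - (1 - x) ^ 2 * Q ^ 2) := by ring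
  rw [hfin, abs_mul, abs_of_pos (by norm_num : (0 : ℝ) < 4)]
  linarith

lemma relevant (k M : ℕ) (hk : 1 ≤ k) (hM : 1 ≤ M) (v : W k M) :
    ∃ ω : W k M → Bool, F (sz k M) (Function.update ω v true) ≠
      F (sz k M) (Function.update ω v false) := by
  classical
  have hsz : ∀ b : Option (Fin (2 ^ k)), 1 ≤ sz k M b := by
    intro b; cases b
    · exact hM
    · exact hk
  refine ⟨fun w => if w.1 = v.1 then true else false, ?_⟩
  have hg1 : g (sz k M) (Function.update (fun w => if w.1 = v.1 then true else false) v true) = 0 := by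
    unfold g
    refine Finset.prod_eq_zero (Finset.mem_univ v.1) ?_
    have : A (sz k M) (Function.update (fun w => if w.1 = v.1 then true else false) v true) v.1 = 1 := by
      unfold A
      refine Finset.prod_eq_one fun i _ => ?_
      by_cases hi : (⟨v.1, i⟩ : W k M) = v
      · rw [hi]; simp
      · rw [Function.update_of_ne hi]; simp
    rw [this, sub_self]
  have hg2 : g (sz k M) (Function.update (fun w => if w.1 = v.1 then true else false) v false) = 1 := by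
    unfold g
    refine Finset.prod_eq_one fun b _ => ?_
    have : A (sz k M) (Function.update (fun w => if w.1 = v.1 then true else false) v false) b = 0 := by
      unfold A
      by_cases hb : b = v.1
      · subst hb
        refine Finset.prod_eq_zero (Finset.mem_univ v.2) ?_
        simp
      · refine Finset.prod_eq_zero (Finset.mem_univ (⟨0, hsz b⟩ : Fin (sz k M b))) ?_
        have hne : (⟨b, ⟨0, hsz b⟩⟩ : W k M) ≠ v := fun h => hb (by rw [← h])
        rw [Function.update_of_ne hne]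
        simp [hb]
    rw [this, sub_zero]
  unfold F
  rw [hg1, hg2]
  norm_num

/-- The size of the large block. -/
def bigM (k : ℕ) : ℕ := (2 ^ k * k) * ((2 ^ k * k + 1) ^ (2 ^ k * k)) * (k + 1)

lemma le_bigM (k : ℕ) (hk : 1 ≤ k) : k ≤ bigM k := by
  unfold bigM
  have h1 : 1 ≤ 2 ^ k * k := Nat.mul_pos (by positivity) hk
  have h2 : 1 ≤ (2 ^ k * k + 1) ^ (2 ^ k * k) := Nat.one_le_pow _ _ (by omega)
  have h3 : 1 ≤ (2 ^ k * k) * ((2 ^ k * k + 1) ^ (2 ^ k * k)) := Nat.mul_pos h1 h2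
  nlinarith

lemma ratio_ge (k : ℕ) (hk : 4 ≤ k) (δ : ℝ) (h0 : 0 < δ) (h1 : δ < 1)
    (hδ : δ ≤ 1 - 16 * (1 / 2 : ℝ) ^ bigM k) (hh : (1 / 2 : ℝ) ≤ 1 - 16 * (1 / 2 : ℝ) ^ bigM k)
    (hm : 1 ≤ δ * ((2 ^ k * k : ℕ) + 1 : ℝ)) :
    ((k : ℝ) + 1) / 2 ≤ clueB (1 / 2) (F (sz k (bigM k))) δ / cp (1 / 2) (F (sz k (bigM k))) δ := by
  have hk1 : 1 ≤ k := by omega
  have hM1 : 1 ≤ bigM k := hk1.trans (le_bigM k hk1)
  have hcp := cp_le k (bigM k) hk1 hM1 δ hδ
  have hcp0 := cp_pos k (bigM k) hk1 hM1 δ h0 hδ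
  have hB := clueB_ge k (bigM k) hk1 hM1 δ h0.le h1.le
  rw [le_div_iff₀ hcp0]
  refine le_trans ?_ hB
  refine le_trans (mul_le_mul_of_nonneg_left hcp (by positivity)) ?_
  set m := 2 ^ k * k with hmdef
  have hm0 : 1 ≤ m := Nat.mul_pos (by positivity) hk1
  have hmr : (1 : ℝ) ≤ (m : ℝ) := by exact_mod_cast hm0
  have hMr : ((bigM k : ℕ) : ℝ) = (m : ℝ) * ((m : ℝ) + 1) ^ m * ((k : ℝ) + 1) := by
    unfold bigM; rw [← hmdef]; push_cast; ring
  have hpow : 1 ≤ (δ * ((m : ℝ) + 1)) ^ m := one_le_pow₀ hm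
  rw [mul_pow] at hpow
  have hδm : 0 < δ ^ m := pow_pos h0 _
  have hMpos : 0 < (m : ℝ) * ((m : ℝ) + 1) ^ m * ((k : ℝ) + 1) := by positivity
  have hfrac : ((m : ℕ) : ℝ) / ((bigM k + m : ℕ) : ℝ) ≤ δ ^ m / ((k : ℝ) + 1) := by
    push_cast
    rw [hMr]
    calc (m : ℝ) / ((m : ℝ) * ((m : ℝ) + 1) ^ m * ((k : ℝ) + 1) + m)
        ≤ (m : ℝ) / ((m : ℝ) * ((m : ℝ) + 1) ^ m * ((k : ℝ) + 1)) :=
          div_le_div_of_nonneg_left (by positivity) hMpos (by linarith)
      _ = 1 / (((m : ℝ) + 1) ^ m * ((k : ℝ) + 1)) := by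
          field_simp
      _ ≤ δ ^ m / ((k : ℝ) + 1) := by
          rw [div_le_div_iff₀ (by positivity) (by positivity)]
          have : 0 < (k : ℝ) + 1 := by positivity
          nlinarith
  calc ((k : ℝ) + 1) / 2 * (((m : ℕ) : ℝ) / ((bigM k + m : ℕ) : ℝ))
      ≤ ((k : ℝ) + 1) / 2 * (δ ^ m / ((k : ℝ) + 1)) :=
        mul_le_mul_of_nonneg_left hfrac (by positivity)
    _ = δ ^ m * (1 / 2) := by
        have : (k : ℝ) + 1 ≠ 0 := by positivity
        field_simp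
    _ ≤ δ ^ m * (1 - 16 * (1 / 2 : ℝ) ^ bigM k) := mul_le_mul_of_nonneg_left hh hδm.le

end concrete

/-- The negated form of Q1, for every `δ` at once, with fair bits, variance bounded below, and
every coordinate relevant. -/
theorem result :
    ∃ (V : ℕ → Type) (_ : ∀ n, Fintype (V n)) (_ : ∀ n, DecidableEq (V n))
      (f : ∀ n, (V n → Bool) → ℝ),
      Tendsto (fun n => Fintype.card (V n)) atTop atTop ∧
      (∀ n ω, f n ω = 1 ∨ f n ω = -1) ∧
      (∀ n, Monotone (f n)) ∧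
      (∀ n v, ∃ ω : V n → Bool, f n (Function.update ω v true) ≠ f n (Function.update ω v false)) ∧
      (∀ n, 1 / 4 ≤ var (1 / 2) (f n)) ∧
      (∀ ε : ℝ, 0 < ε → ε < 1 →
        Tendsto (fun n => corr (1 / 2) (f n) ε - ex (1 / 2) (f n) ^ 2) atTop (𝓝 0)) ∧
      (∀ δ : ℝ, 0 < δ → δ < 1 →
        Tendsto (fun n => clueB (1 / 2) (f n) δ / cp (1 / 2) (f n) δ) atTop atTop) := by
  refine ⟨fun n => W (n + 1) (bigM (n + 1)), fun n => inferInstance, fun n => inferInstance,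
    fun n => F (sz (n + 1) (bigM (n + 1))), ?_, ?_, ?_, ?_, ?_, ?_, ?_⟩
  · refine tendsto_atTop_mono (fun n => ?_) tendsto_id
    rw [card_W]
    have := le_bigM (n + 1) (by omega)
    simp only [id]
    omega
  · exact fun n ω => F_cases _ ω
  · exact fun n => F_mono _
  · exact fun n v => relevant _ _ (by omega) ((by omega : 1 ≤ n + 1).trans (le_bigM _ (by omega))) v
  · exact fun n => var_F _ _ (by omega) ((by omega : 1 ≤ n + 1).trans (le_bigM _ (by omega)))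
  · intro ε h0 h1
    have hlim : Tendsto (fun n : ℕ => 4 * (3 * (1 / 2 : ℝ) ^ (n + 1) + (1 - ε / 2) ^ (n + 1))) atTop
        (𝓝 0) := by
      have t1 : Tendsto (fun n : ℕ => (1 / 2 : ℝ) ^ (n + 1)) atTop (𝓝 0) :=
        (tendsto_pow_atTop_nhds_zero_of_lt_one (by norm_num) (by norm_num)).comp (tendsto_add_atTop_nat 1)
      have t2 : Tendsto (fun n : ℕ => (1 - ε / 2 : ℝ) ^ (n + 1)) atTop (𝓝 0) :=
        (tendsto_pow_atTop_nhds_zero_of_lt_one (by linarith) (by linarith)).comp (tendsto_add_atTop_nat 1)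
      have := ((t1.const_mul 3).add t2).const_mul 4
      simpa using this
    refine squeeze_zero_norm (fun n => ?_) hlim
    rw [Real.norm_eq_abs]
    exact abs_corr_le (n + 1) (bigM (n + 1)) (by omega) (le_bigM _ (by omega)) ε h0 h1
  · intro δ h0 h1
    have hM : Tendsto (fun n : ℕ => bigM (n + 1)) atTop atTop := by
      refine tendsto_atTop_mono (fun n => ?_) tendsto_id
      have := le_bigM (n + 1) (by omega)
      simp only [id]
      omega
    have hp : Tendsto (fun n : ℕ => 1 - 16 * (1 / 2 : ℝ) ^ bigM (n + 1)) atTop (𝓝 1) := by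
      have t1 : Tendsto (fun n : ℕ => (1 / 2 : ℝ) ^ bigM (n + 1)) atTop (𝓝 0) :=
        (tendsto_pow_atTop_nhds_zero_of_lt_one (by norm_num) (by norm_num)).comp hM
      have := (t1.const_mul 16).const_sub 1
      simpa using this
    have ev1 := hp.eventually_const_le h1
    have ev2 := hp.eventually_const_le (show (1 / 2 : ℝ) < 1 by norm_num)
    have hlim : Tendsto (fun n : ℕ => (((n + 1 : ℕ) : ℝ) + 1) / 2) atTop atTop := by
      refine Tendsto.atTop_div_const (by norm_num) ?_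
      refine tendsto_atTop_add_const_right _ _ ?_
      exact (tendsto_natCast_atTop_atTop).comp (tendsto_add_atTop_nat 1)
    have ev3 : ∀ᶠ n : ℕ in atTop, 1 ≤ δ * ((2 ^ (n + 1) * (n + 1) : ℕ) + 1 : ℝ) := by
      obtain ⟨N, hN⟩ := exists_nat_gt (1 / δ)
      filter_upwards [eventually_ge_atTop N] with n hn
      have h2 : (N : ℝ) ≤ ((2 ^ (n + 1) * (n + 1) : ℕ) : ℝ) := by
        have : N ≤ 2 ^ (n + 1) * (n + 1) := by
          have h3 : 1 ≤ 2 ^ (n + 1) := Nat.one_le_two_pow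
          nlinarith
        exact_mod_cast this
      have h4 : 1 / δ ≤ ((2 ^ (n + 1) * (n + 1) : ℕ) : ℝ) + 1 := by linarith
      rw [div_le_iff₀ h0] at h4
      linarith
    refine tendsto_atTop_mono' _ ?_ hlim
    filter_upwards [ev1, ev2, ev3, eventually_ge_atTop 3] with n a1 a2 a3 a4
    exact ratio_ge (n + 1) (by omega) δ h0 h1 a1 a2 a3

end Pool.Agent.Results.MP_b26fee_pr.SparseSet
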